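import Pool.Agent.H39.Newt.Stmts

/-!
# Project NEWTON, module NDG: generic polynomials are nondegenerate
-/

set_option autoImplicit false

namespace Pool.Newt

open MvPolynomial Pool.Agent.H39.MonoR Pool.Agent.H75.Mono

open scoped IntermediateField.algebraAdjoinAdjoin in
theorem NDG_trdeg (s : Set ℂ) :
    Algebra.trdeg ℚ (IntermediateField.adjoin ℚ s) ≤ Cardinal.mk s := by
  have h1 : Algebra.trdeg ℚ (Algebra.adjoin ℚ s) + Algebra.trdeg (Algebra.adjoin ℚ s)
      (IntermediateField.adjoin ℚ s) = Algebra.trdeg ℚ (IntermediateField.adjoin ℚ s) :=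
    trdeg_add_eq ℚ (Algebra.adjoin ℚ s)
  have h2 : Algebra.trdeg (Algebra.adjoin ℚ s) (IntermediateField.adjoin ℚ s) = 0 :=
    trdeg_eq_zero
  rw [← h1, h2, add_zero]
  have h3 : Function.Surjective (MvPolynomial.aeval (R := ℚ)
      (fun x : s => (⟨x, Algebra.subset_adjoin x.2⟩ : Algebra.adjoin ℚ s))) := by
    rintro ⟨y, hy0⟩
    have hy : y ∈ (MvPolynomial.aeval (R := ℚ) ((↑) : s → ℂ)).range := by
      rw [← Algebra.adjoin_eq_range]
      exact hy0
    obtain ⟨p, hp⟩ := hy
    refine ⟨p, ?_⟩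
    apply Subtype.ext
    have h5 := (MvPolynomial.aeval_algebraMap_apply (A := Algebra.adjoin ℚ s) ℂ
      (fun x : s => (⟨x, Algebra.subset_adjoin x.2⟩ : Algebra.adjoin ℚ s)) p)
    exact h5.symm.trans hp
  have h4 := trdeg_le_of_surjective _ h3
  refine h4.trans ?_
  rw [MvPolynomial.trdeg_of_isDomain]
  simp

theorem NDG_card {n : ℕ} (g : Fin n → ℂ) (hg : AlgebraicIndependent ℚ g) (s : Set ℂ)
    (hgs : ∀ r, g r ∈ IntermediateField.adjoin ℚ s) : (n : Cardinal) ≤ Cardinal.mk s := by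
  have h1 : AlgebraicIndependent ℚ
      (fun r => (⟨g r, hgs r⟩ : IntermediateField.adjoin ℚ s)) :=
    AlgebraicIndependent.of_comp (IntermediateField.adjoin ℚ s).val hg
  have h2 := h1.cardinalMk_le_trdeg
  rw [Cardinal.mk_fin] at h2
  exact h2.trans (NDG_trdeg s)

/-- the relations supported on `S` -/
def NDG_K {σ I : Type} [Fintype I] (a : I → σ → ℕ) (S : Set I) : Submodule ℤ (I → ℤ) where
  carrier := {κ | κ ∈ Ker a ∧ ∀ i, i ∉ S → κ i = 0}
  zero_mem' := ⟨(Ker a).zero_mem, fun _ _ => rfl⟩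
  add_mem' := by
    rintro x y ⟨hx, hx'⟩ ⟨hy, hy'⟩
    exact ⟨(Ker a).add_mem hx hy, fun i hi => by simp [hx' i hi, hy' i hi]⟩
  smul_mem' := by
    rintro n x ⟨hx, hx'⟩
    exact ⟨(Ker a).zsmul_mem hx n, fun i hi => by simp [hx' i hi]⟩

theorem NDG_zpow_sum {J : Type} {x : ℂ} (hx : x ≠ 0) (t : Finset J) (f : J → ℤ) :
    x ^ (∑ r ∈ t, f r) = ∏ r ∈ t, x ^ f r := by
  classical
  induction t using Finset.induction_on with
  | empty => simp
  | insert r t hr ih => rw [Finset.sum_insert hr, Finset.prod_insert hr, zpow_add₀ hx, ih]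

/-- algebraic independence from linear independence of the monomials -/
theorem NDG_algInd {σ I : Type} [Fintype σ] [Fintype I] (a : I → σ → ℕ) (e : I → ℂ)
    (he : ∀ i, e i ≠ 0)
    (hG : LinearIndependent ℚ (fun κ : Ker a => ∏ i, (e i) ^ ((κ : I → ℤ) i))) {n : ℕ}
    (b : Fin n → I → ℤ) (hb : ∀ r, b r ∈ Ker a) (hli : LinearIndependent ℤ b) :
    AlgebraicIndependent ℚ (fun r => ∏ i, (e i) ^ (b r i)) := by
  rw [algebraicIndependent_iff]
  intro p hp
  have hK : ∀ m : Fin n →₀ ℕ, (∑ r, (m r : ℤ) • b r) ∈ Ker a := fun m =>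
    (Ker a).sum_mem fun r _ => (Ker a).zsmul_mem (hb r) _
  have hinj : Function.Injective (fun m : Fin n →₀ ℕ => (⟨_, hK m⟩ : Ker a)) := by
    intro m m' h
    have h1 : (∑ r, (m r : ℤ) • b r) = ∑ r, (m' r : ℤ) • b r := congrArg Subtype.val h
    have h2 : ∑ r, ((m r : ℤ) - m' r) • b r = 0 := by
      simp only [sub_smul, Finset.sum_sub_distrib, h1, sub_self]
    have h3 := (Fintype.linearIndependent_iff.1 hli) _ h2
    ext r
    have := h3 r
    omega
  have h4 := hG.comp _ hinj
  have hmon : ∀ m : Fin n →₀ ℕ, ∏ r, (∏ i, (e i) ^ (b r i)) ^ (m r) =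
      ((fun κ : Ker a => ∏ i, (e i) ^ ((κ : I → ℤ) i)) ∘
        (fun m : Fin n →₀ ℕ => (⟨_, hK m⟩ : Ker a))) m := by
    intro m
    simp only [Function.comp]
    simp only [Finset.sum_apply, Pi.smul_apply, smul_eq_mul]
    rw [Finset.prod_congr rfl (fun r _ => (Finset.prod_pow _ _ _).symm), Finset.prod_comm]
    refine Finset.prod_congr rfl fun i _ => ?_
    rw [NDG_zpow_sum (he i)]
    refine Finset.prod_congr rfl fun r _ => ?_
    rw [mul_comm, zpow_mul, zpow_natCast]
  rw [aeval_def, eval₂_eq'] at hp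
  rw [linearIndependent_iff'] at h4
  ext m
  rw [coeff_zero]
  by_contra hm
  refine hm (h4 p.support (fun m => coeff m p) ?_ m (mem_support_iff.2 hm))
  rw [← hp]
  refine Finset.sum_congr rfl fun m _ => ?_
  rw [← hmon, Algebra.smul_def]

/-- a complex vector on which all relations vanish is a combination of integral vectors -/
theorem NDG_span {σ I : Type} [Fintype I] (a : I → σ → ℕ) (S : Set I) (y : I → ℂ)
    (hS : ∀ i, i ∉ S → y i = 0) (h0 : ∑ i, y i = 0) (h1 : ∀ l, ∑ i, y i * (a i l : ℂ) = 0) :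
    y ∈ Submodule.span ℂ ((fun (κ : I → ℤ) (i : I) => (κ i : ℂ)) '' (NDG_K a S : Set (I → ℤ))) := by
  classical
  set B := Module.Basis.ofVectorSpace ℚ ℂ with hB
  set T := Finset.univ.biUnion (fun i => (B.repr (y i)).support) with hT
  -- denominators
  have hD : ∀ β, ∃ (D : ℕ) (n : I → ℤ), D ≠ 0 ∧ n ∈ NDG_K a S ∧
      ∀ i, (n i : ℚ) = D * B.repr (y i) β := by
    intro β
    refine ⟨∏ i, (B.repr (y i) β).den, fun i => (∏ i' ∈ Finset.univ.erase i,
      (B.repr (y i') β).den : ℕ) * (B.repr (y i) β).num, ?_, ?_, ?_⟩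
    · exact Finset.prod_ne_zero_iff.2 fun i _ => (B.repr (y i) β).den_nz
    all_goals
      have key : ∀ i, (((∏ i' ∈ Finset.univ.erase i, (B.repr (y i') β).den : ℕ) *
          (B.repr (y i) β).num : ℤ) : ℚ) = (∏ i, (B.repr (y i) β).den : ℕ) * B.repr (y i) β := by
        intro i
        rw [← Finset.mul_prod_erase Finset.univ _ (Finset.mem_univ i)]
        push_cast
        have h2 : (B.repr (y i) β : ℚ) * (B.repr (y i) β).den = (B.repr (y i) β).num :=
          Rat.mul_den_eq_num _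
        rw [← h2]
        ring
    · refine ⟨⟨?_, fun l => ?_⟩, fun i hi => ?_⟩
      · have h2 : (B.repr (∑ i, y i)) β = 0 := by rw [h0]; simp
        rw [map_sum, Finsupp.finsetSum_apply] at h2
        have h3 : (((∑ i, ((∏ i' ∈ Finset.univ.erase i, (B.repr (y i') β).den : ℕ) *
          (B.repr (y i) β).num : ℤ)) : ℤ) : ℚ) = 0 := by
          rw [Int.cast_sum, Finset.sum_congr rfl (fun i _ => key i), ← Finset.mul_sum, h2, mul_zero]
        exact_mod_cast h3
      · have h2 : (B.repr (∑ i, y i * (a i l : ℂ))) β = 0 := by rw [h1]; simp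
        rw [map_sum, Finsupp.finsetSum_apply] at h2
        have h4 : ∀ i, (B.repr (y i * (a i l : ℂ))) β = B.repr (y i) β * a i l := by
          intro i
          have : y i * (a i l : ℂ) = (a i l : ℚ) • y i := by
            rw [Rat.smul_def]
            push_cast
            ring
          rw [this, map_smul, Finsupp.smul_apply, smul_eq_mul, mul_comm]
        rw [Finset.sum_congr rfl (fun i _ => h4 i)] at h2
        have h3 : (((∑ i, ((∏ i' ∈ Finset.univ.erase i, (B.repr (y i') β).den : ℕ) *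
          (B.repr (y i) β).num : ℤ) * (a i l : ℤ)) : ℤ) : ℚ) = 0 := by
          rw [Int.cast_sum]
          have : ∀ i, ((((∏ i' ∈ Finset.univ.erase i, (B.repr (y i') β).den : ℕ) *
            (B.repr (y i) β).num : ℤ) * (a i l : ℤ) : ℤ) : ℚ) =
              (∏ i, (B.repr (y i) β).den : ℕ) * (B.repr (y i) β * a i l) := by
            intro i
            rw [Int.cast_mul, key i]
            push_cast
            ring
          rw [Finset.sum_congr rfl (fun i _ => this i), ← Finset.mul_sum, h2, mul_zero]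
        exact_mod_cast h3
      · have h2 := key i
        rw [hS i hi] at h2
        simp only [map_zero, Finsupp.coe_zero, Pi.zero_apply, mul_zero] at h2
        have h5 : (B.repr (y i) β).num = 0 := by rw [hS i hi]; simp
        simp [h5]
    · exact key
  choose D n hD0 hnK hn using hD
  have hy : y = ∑ β ∈ T, ((B β : ℂ) / (D β : ℂ)) • (fun i => ((n β i : ℤ) : ℂ)) := by
    funext i
    rw [Finset.sum_apply]
    have h2 : ∑ β ∈ (B.repr (y i)).support, B.repr (y i) β • B β = y i := by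
      have := B.linearCombination_repr (y i)
      rwa [Finsupp.linearCombination_apply, Finsupp.sum] at this
    have h3 : ∑ β ∈ T, B.repr (y i) β • B β = y i := by
      refine Eq.trans ?_ h2
      symm
      apply Finset.sum_subset
      · intro β hβ
        exact Finset.mem_biUnion.2 ⟨i, Finset.mem_univ i, hβ⟩
      · intro β _ hβ
        rw [Finsupp.notMem_support_iff.1 hβ, zero_smul]
    refine h3.symm.trans ?_
    refine Finset.sum_congr rfl fun β _ => ?_
    rw [Pi.smul_apply, smul_eq_mul]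
    have h4 : ((n β i : ℤ) : ℂ) = (D β : ℂ) * ((B.repr (y i) β : ℚ) : ℂ) := by
      have := congrArg (fun q : ℚ => (q : ℂ)) (hn β i)
      push_cast at this
      exact this
    rw [h4, Rat.smul_def]
    have : (D β : ℂ) ≠ 0 := Nat.cast_ne_zero.2 (hD0 β)
    field_simp
  rw [hy]
  refine Submodule.sum_mem _ fun β _ => Submodule.smul_mem _ _ (Submodule.subset_span ?_)
  exact ⟨n β, hnK β, rfl⟩

theorem NDG_aeval {k : Type} [Field k] [Algebra k ℂ] {σ I : Type} [Fintype σ] [Fintype I]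
    (a : I → σ → ℕ) (c : I → k) (u : σ → ℕ) (z : σ → ℂ) (y : I → ℂ)
    (hy : ∀ i ∈ face a u, y i = algebraMap k ℂ (c i) * ∏ l, z l ^ a i l)
    (hS : ∀ i, i ∉ face a u → y i = 0) :
    aeval z (fpoly a c u) = ∑ i, y i ∧
      ∀ l, z l * aeval z (pderiv l (fpoly a c u)) = ∑ i, y i * (a i l : ℂ) := by
  classical
  have h1 : ∀ i, aeval z (monomial (Finsupp.equivFunOnFinite.symm (a i)) (c i)) =
      algebraMap k ℂ (c i) * ∏ l, z l ^ a i l := by
    intro i
    rw [aeval_monomial, Finsupp.prod_fintype]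
    · rfl
    · intro l; exact pow_zero _
  constructor
  · unfold fpoly
    rw [map_sum]
    refine Finset.sum_congr rfl fun i _ => ?_
    by_cases hi : i ∈ face a u
    · rw [if_pos hi, h1, hy i hi]
    · rw [if_neg hi, map_zero, hS i hi]
  · intro l
    have h2 : z l * aeval z (pderiv l (fpoly a c u)) = aeval z (X l * pderiv l (fpoly a c u)) := by
      rw [map_mul, aeval_X]
    rw [h2]
    unfold fpoly
    rw [map_sum, Finset.mul_sum, map_sum]
    refine Finset.sum_congr rfl fun i _ => ?_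
    by_cases hi : i ∈ face a u
    · rw [if_pos hi, X_mul_pderiv_monomial, map_nsmul, h1, hy i hi, nsmul_eq_mul]
      exact mul_comm _ _
    · rw [if_neg hi, map_zero, mul_zero, map_zero, hS i hi, zero_mul]

theorem sNdg : SNdg := by
  classical
  intro k _ _ σ I _ _ _ a c hc hG u z hz h0
  by_contra hcon
  push Not at hcon
  set S := face a u with hS
  -- the numbers `c_i z^(a_i)`
  set Y : I → ℂ := fun i => algebraMap k ℂ (c i) * ∏ l, z l ^ a i l with hY
  have hc' : ∀ i, algebraMap k ℂ (c i) ≠ 0 := fun i =>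
    (map_ne_zero (algebraMap k ℂ)).2 (hc i)
  have hY0 : ∀ i, Y i ≠ 0 := fun i =>
    mul_ne_zero (hc' i) (Finset.prod_ne_zero_iff.2 fun l _ => pow_ne_zero _ (hz l))
  set y : I → ℂ := fun i => if i ∈ S then Y i else 0 with hy
  obtain ⟨e0, e1⟩ := NDG_aeval a c u z y (fun i hi => if_pos hi) (fun i hi => if_neg hi)
  have hy0 : ∑ i, y i = 0 := by rw [← e0, h0]
  have hy1 : ∀ l, ∑ i, y i * (a i l : ℂ) = 0 := fun l => by rw [← e1, hcon, mul_zero]
  have hsp := NDG_span a S y (fun i hi => if_neg hi) hy0 hy1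
  -- basis of the relations supported on `S`
  set n := Module.finrank ℤ (NDG_K a S) with hn
  let b : Module.Basis (Fin n) ℤ (NDG_K a S) := Module.finBasis ℤ (NDG_K a S)
  have hsp2 : y ∈ Submodule.span ℂ (Set.range fun (r : Fin n) (i : I) => (((b r : I → ℤ) i : ℤ) : ℂ)) := by
    refine (Submodule.span_le.2 ?_) hsp
    rintro _ ⟨κ, hκ, rfl⟩
    have h2 : κ = ∑ r, (b.repr ⟨κ, hκ⟩ r) • (b r : I → ℤ) := by
      have := congrArg Subtype.val (b.sum_repr ⟨κ, hκ⟩)
      refine this.symm.trans ?_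
      rw [Submodule.coe_sum]
      rfl
    have h3 : (fun i => ((κ i : ℤ) : ℂ)) =
        ∑ r, ((b.repr ⟨κ, hκ⟩ r : ℤ) : ℂ) • (fun i : I => (((b r : I → ℤ) i : ℤ) : ℂ)) := by
      funext i
      conv_lhs => rw [h2]
      simp
    show (fun i => ((κ i : ℤ) : ℂ)) ∈ _
    rw [h3]
    exact Submodule.sum_mem _ fun r _ => Submodule.smul_mem _ _ (Submodule.subset_span ⟨r, rfl⟩)
  rw [Submodule.mem_span_range_iff_exists_fun] at hsp2
  obtain ⟨x, hx⟩ := hsp2
  have hyx : ∀ i, y i = ∑ r, x r * (((b r : I → ℤ) i : ℤ) : ℂ) := by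
    intro i
    rw [← hx]
    simp
  obtain ⟨i0, hi0⟩ := exists_mem_face a u
  have hr0 : ∃ r0, x r0 ≠ 0 := by
    by_contra hx0
    push Not at hx0
    have := hyx i0
    simp only [hx0, zero_mul, Finset.sum_const_zero] at this
    exact hY0 i0 (by rw [← this]; exact (if_pos hi0).symm)
  obtain ⟨r0, hr0⟩ := hr0
  -- the field
  set s : Set ℂ := Set.range (fun r : {r : Fin n // r ≠ r0} => x r / x r0) with hs
  have hxE : ∀ r, x r / x r0 ∈ IntermediateField.adjoin ℚ s := by
    intro r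
    by_cases h : r = r0
    · rw [h, div_self hr0]
      exact one_mem _
    · exact IntermediateField.subset_adjoin ℚ s ⟨⟨r, h⟩, rfl⟩
  have hYE : ∀ i ∈ S, Y i / x r0 ∈ IntermediateField.adjoin ℚ s := by
    intro i hi
    have h2 : Y i = ∑ r, x r * (((b r : I → ℤ) i : ℤ) : ℂ) := by
      rw [← hyx i]
      exact (if_pos hi).symm
    rw [h2, Finset.sum_div]
    refine sum_mem fun r _ => ?_
    rw [mul_div_right_comm]
    exact mul_mem (hxE r) (intCast_mem _ _)
  have hval : ∀ κ ∈ NDG_K a S, ∏ i, (algebraMap k ℂ (c i)) ^ (κ i) =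
      ∏ i, (Y i / x r0) ^ (κ i) := by
    rintro κ ⟨⟨hκ0, hκ1⟩, -⟩
    have h2 : ∏ i, (x r0) ^ (κ i) = 1 := by
      rw [← NDG_zpow_sum hr0, hκ0, zpow_zero]
    have h3 : ∏ i, (∏ l, z l ^ a i l) ^ (κ i) = 1 := by
      have h4 : ∀ i, (∏ l, z l ^ a i l) ^ (κ i) = ∏ l, z l ^ (κ i * (a i l : ℤ)) := by
        intro i
        rw [← Finset.prod_zpow]
        refine Finset.prod_congr rfl fun l _ => ?_
        rw [mul_comm, zpow_mul, zpow_natCast]
      rw [Finset.prod_congr rfl (fun i _ => h4 i), Finset.prod_comm]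
      refine Finset.prod_eq_one fun l _ => ?_
      rw [← NDG_zpow_sum (hz l), hκ1 l, zpow_zero]
    have h5 : ∏ i, (Y i) ^ (κ i) = ∏ i, (algebraMap k ℂ (c i)) ^ (κ i) := by
      simp only [hY, mul_zpow, Finset.prod_mul_distrib, h3, mul_one]
    simp only [div_zpow, Finset.prod_div_distrib, h2, div_one, h5]
  have halg := NDG_algInd a (fun i => algebraMap k ℂ (c i)) hc' hG (fun r => (b r : I → ℤ))
    (fun r => (b r).2.1) (b.linearIndependent.map' (NDG_K a S).subtype (Submodule.ker_subtype _))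
  have hcard := NDG_card _ halg s (by
    intro r
    rw [hval _ (b r).2]
    refine prod_mem fun i _ => ?_
    by_cases hi : i ∈ S
    · exact zpow_mem (hYE i hi) _
    · rw [(b r).2.2 i hi, zpow_zero]
      exact one_mem _)
  have hs2 : Cardinal.mk s ≤ ((n - 1 : ℕ) : Cardinal) := by
    refine Cardinal.mk_range_le.trans ?_
    rw [Cardinal.mk_fintype]
    simp
  have h6 := hcard.trans hs2
  rw [Nat.cast_le] at h6
  have h7 : 0 < n := lt_of_le_of_lt (Nat.zero_le _) r0.2
  omega

end Pool.Newt
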