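import Pool.Agent.H39.Newt.Stmts

/-!
# Project NEWTON, module NIL: logarithms of unipotent elements
-/

set_option autoImplicit false

namespace Pool.Newt

open MvPolynomial Pool.Agent.H39.MonoR Pool.Agent.H75.Mono

section

variable {A : Type} [CommRing A] [Algebra ℚ A]

theorem NIL_exp {z : A} (hz : IsNilpotent z) : ∃ w : A, IsNilpotent.exp z = 1 + z * (1 + z * w) := by
  obtain ⟨n, hn⟩ := hz
  have h2 : z ^ (n + 2) = 0 := by rw [pow_add, hn, zero_mul]
  rw [IsNilpotent.exp_eq_sum h2]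
  refine ⟨∑ i ∈ Finset.range n, ((i + 2).factorial : ℚ)⁻¹ • z ^ i, ?_⟩
  rw [Finset.sum_range_succ', Finset.sum_range_succ']
  simp only [Nat.factorial_zero, Nat.cast_one, inv_one, pow_zero, one_smul, zero_add,
    Nat.factorial_one, pow_one]
  rw [mul_add, mul_one, Finset.mul_sum, Finset.mul_sum]
  rw [add_comm _ (1 : A), add_comm _ z, Finset.sum_congr rfl]
  intro i _
  rw [mul_smul_comm, mul_smul_comm]
  congr 1
  ring

/-- `exp z - 1` is `z` times a unit -/
theorem NIL_unit {z : A} (hz : IsNilpotent z) : ∃ v : Aˣ, IsNilpotent.exp z - 1 = v * z := by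
  obtain ⟨w, hw⟩ := NIL_exp hz
  have h3 : IsNilpotent (z * w) := (Commute.all z w).isNilpotent_mul_right hz
  have h4 : IsUnit (1 + z * w) := h3.isUnit_one_add
  obtain ⟨v, hv⟩ := h4
  refine ⟨v, ?_⟩
  rw [hw, hv]
  ring

theorem NIL_step (x n : A) (hn : IsNilpotent n) (hx : x = 1 + n) (k : ℕ) :
    ∃ L r : A, IsNilpotent L ∧ x * IsNilpotent.exp (-L) = 1 + n ^ (k + 1) * r := by
  induction k with
  | zero =>
    refine ⟨0, 1, IsNilpotent.zero, ?_⟩
    rw [neg_zero, IsNilpotent.exp_zero, hx]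
    ring
  | succ k ih =>
    obtain ⟨L, r, hL, h⟩ := ih
    set z := n ^ (k + 1) * r with hz
    have hzn : IsNilpotent z :=
      (Commute.all _ _).isNilpotent_mul_right (hn.pow_succ k)
    obtain ⟨w, hw⟩ := NIL_exp (z := -z) hzn.neg
    refine ⟨L + z, n ^ k * r ^ 2 * (-1 + w * (1 + z)), (Commute.all _ _).isNilpotent_add hL hzn, ?_⟩
    rw [neg_add, IsNilpotent.exp_add_of_commute (Commute.all _ _) hL.neg hzn.neg, ← mul_assoc, h,
      hw]
    have e : z ^ 2 = n ^ (k + 1 + 1) * (n ^ k * r ^ 2) := by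
      rw [hz]; ring
    calc _ = 1 + z ^ 2 * (-1 + w * (1 + z)) := by ring
      _ = _ := by rw [e]; ring

/-- existence of logarithms -/
theorem NIL_log (x : A) (hx : IsNilpotent (x - 1)) :
    ∃ L : A, IsNilpotent L ∧ IsNilpotent.exp L = x := by
  obtain ⟨N, hN⟩ := id hx
  obtain ⟨L, r, hL, h⟩ := NIL_step x (x - 1) hx (by ring) N
  rw [pow_succ, hN, zero_mul, zero_mul, add_zero] at h
  refine ⟨L, hL, ?_⟩
  have h1 := IsNilpotent.exp_neg_mul_exp_self hL
  calc IsNilpotent.exp L = (x * IsNilpotent.exp (-L)) * IsNilpotent.exp L := by rw [h, one_mul]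
    _ = x * (IsNilpotent.exp (-L) * IsNilpotent.exp L) := by ring
    _ = x := by rw [h1, mul_one]

theorem NIL_zpow {L : A} (hL : IsNilpotent L) (x : Aˣ) (hx : IsNilpotent.exp L = x) (n : ℤ) :
    IsNilpotent.exp ((n : A) * L) = ((x ^ n : Aˣ) : A) := by
  have hn : ∀ m : ℤ, IsNilpotent ((m : A) * L) := fun m =>
    (Commute.all _ _).isNilpotent_mul_left hL
  have hinv : IsNilpotent.exp (-L) = ((x⁻¹ : Aˣ) : A) := by
    have h1 := IsNilpotent.exp_mul_exp_neg_self hL
    rw [hx] at h1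
    calc IsNilpotent.exp (-L) = ((x⁻¹ : Aˣ) : A) * (x * IsNilpotent.exp (-L)) := by
          rw [← mul_assoc, Units.inv_mul, one_mul]
      _ = _ := by rw [h1, mul_one]
  induction n using Int.induction_on with
  | zero => simp
  | succ n ih =>
    have e : (((n : ℤ) + 1 : ℤ) : A) * L = ((n : ℤ) : A) * L + L := by push_cast; ring
    rw [e, IsNilpotent.exp_add_of_commute (Commute.all _ _) (hn n) hL, ih, hx, zpow_add_one,
      Units.val_mul]
  | pred n ih =>
    have e : ((-(n : ℤ) - 1 : ℤ) : A) * L = ((-(n : ℤ) : ℤ) : A) * L + -L := by push_cast; ring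
    rw [e, IsNilpotent.exp_add_of_commute (Commute.all _ _) (hn _) hL.neg, ih, hinv, zpow_sub_one,
      Units.val_mul]

end

theorem sNil : SNil := by
  classical
  intro I _ A _ _ x hx
  choose L hL hexp using fun i => NIL_log ((x i : A)) (hx i)
  refine ⟨L, fun β => ?_⟩
  have key : ∀ J : Finset I, IsNilpotent (∑ i ∈ J, (β i : A) * L i) ∧
      IsNilpotent.exp (∑ i ∈ J, (β i : A) * L i) = ((∏ i ∈ J, x i ^ β i : Aˣ) : A) := by
    intro J
    induction J using Finset.induction_on with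
    | empty => simp
    | insert i J hi ih =>
      have h1 : IsNilpotent ((β i : A) * L i) := (Commute.all _ _).isNilpotent_mul_left (hL i)
      rw [Finset.sum_insert hi, Finset.prod_insert hi]
      refine ⟨(Commute.all _ _).isNilpotent_add h1 ih.1, ?_⟩
      rw [IsNilpotent.exp_add_of_commute (Commute.all _ _) h1 ih.1, ih.2, Units.val_mul,
        NIL_zpow (hL i) (x i) (hexp i)]
  obtain ⟨h1, h2⟩ := key Finset.univ
  obtain ⟨v, hv⟩ := NIL_unit h1
  refine ⟨v⁻¹, ?_⟩
  rw [← h2, hv, ← mul_assoc, Units.inv_mul, one_mul]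

end Pool.Newt
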